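import Mathlib

/-!
# The stability operator `1 - Y` of the flow, from a condition at every single site

`G` is a complex symmetric matrix, `s a ≥ 0` the clocks, `g a > 0` weights (`Im G a a`), `Y` has the
entries `(s a)^(1/2) (G a b)^2 (s b)^(1/2)`.  If the matrix `Im G` is positive semidefinite and
`∑ b, s b * (Re G a b) ^ 2 * g b ≤ (1 - c) * g a` for all `a`, then `Re (1 - Y) ≥ c`.
-/

set_option autoImplicit false

open scoped BigOperators Matrix

namespace Pool.Agent.Helper92_AND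

section schur

variable {X : Type} [Fintype X]

/-- Schur test, quadratic form -/
theorem schur_form (M : X → X → ℝ) (h : X → ℝ) (c : ℝ) (hM : ∀ a b, 0 ≤ M a b)
    (hs : ∀ a b, M a b = M b a) (hh : ∀ a, 0 < h a)
    (ht : ∀ a, ∑ b, M a b * h b ≤ c * h a) (f : X → ℝ) :
    ∑ a, ∑ b, M a b * f a * f b ≤ c * ∑ a, f a ^ 2 := by
  have h1 : ∀ a b, M a b * f a * f b ≤
      (M a b * h b * (f a ^ 2 / h a) + M b a * h a * (f b ^ 2 / h b)) / 2 := by
    intro a b
    have ha := hh a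
    have hb := hh b
    have h2 : 2 * (f a * f b) ≤ h b * (f a ^ 2 / h a) + h a * (f b ^ 2 / h b) := by
      have h3 : h b * (f a ^ 2 / h a) + h a * (f b ^ 2 / h b) - 2 * (f a * f b) =
          (h b * f a - h a * f b) ^ 2 / (h a * h b) := by
        field_simp
        ring
      have h4 : 0 ≤ (h b * f a - h a * f b) ^ 2 / (h a * h b) := by positivity
      linarith
    rw [← hs a b]
    have h5 := mul_le_mul_of_nonneg_left h2 (hM a b)
    linarith
  calc ∑ a, ∑ b, M a b * f a * f b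
      ≤ ∑ a, ∑ b, (M a b * h b * (f a ^ 2 / h a) + M b a * h a * (f b ^ 2 / h b)) / 2 :=
        Finset.sum_le_sum fun a _ => Finset.sum_le_sum fun b _ => h1 a b
    _ = ((∑ a, ∑ b, M a b * h b * (f a ^ 2 / h a)) +
          ∑ a, ∑ b, M b a * h a * (f b ^ 2 / h b)) / 2 := by
        rw [← Finset.sum_add_distrib, Finset.sum_div]
        refine Finset.sum_congr rfl fun a _ => ?_
        rw [← Finset.sum_add_distrib, Finset.sum_div]
    _ = ∑ a, ∑ b, M a b * h b * (f a ^ 2 / h a) := by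
        rw [Finset.sum_comm (f := fun a b => M b a * h a * (f b ^ 2 / h b))]
        ring
    _ = ∑ a, (∑ b, M a b * h b) * (f a ^ 2 / h a) :=
        Finset.sum_congr rfl fun a _ => (Finset.sum_mul _ _ _).symm
    _ ≤ ∑ a, (c * h a) * (f a ^ 2 / h a) := by
        refine Finset.sum_le_sum fun a _ => mul_le_mul_of_nonneg_right (ht a) ?_
        have := hh a
        positivity
    _ = c * ∑ a, f a ^ 2 := by
        rw [Finset.mul_sum]
        refine Finset.sum_congr rfl fun a _ => ?_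
        have := (hh a).ne'
        field_simp

/-- Schur test, norm -/
theorem schur_norm (M : X → X → ℝ) (h : X → ℝ) (hM : ∀ a b, 0 ≤ M a b)
    (hs : ∀ a b, M a b = M b a) (hh : ∀ a, 0 < h a)
    (ht : ∀ a, ∑ b, M a b * h b ≤ h a) (f : X → ℝ) :
    ∑ a, (∑ b, M a b * f b) ^ 2 ≤ ∑ a, f a ^ 2 := by
  have h1 : ∀ a, (∑ b, M a b * f b) ^ 2 ≤ h a * ∑ b, M a b * (f b ^ 2 / h b) := by
    intro a
    have h2 : (∑ b, M a b * f b) ^ 2 ≤
        (∑ b, M a b * h b) * ∑ b, M a b * (f b ^ 2 / h b) := by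
      refine Finset.sum_sq_le_sum_mul_sum_of_sq_le_mul _ (fun b _ => mul_nonneg (hM a b) (hh b).le)
        (fun b _ => mul_nonneg (hM a b) (div_nonneg (sq_nonneg _) (hh b).le)) fun b _ =>
          le_of_eq ?_
      have := (hh b).ne'
      field_simp
    refine h2.trans (mul_le_mul_of_nonneg_right (ht a) ?_)
    exact Finset.sum_nonneg fun b _ => mul_nonneg (hM a b) (div_nonneg (sq_nonneg _) (hh b).le)
  calc ∑ a, (∑ b, M a b * f b) ^ 2 ≤ ∑ a, h a * ∑ b, M a b * (f b ^ 2 / h b) :=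
        Finset.sum_le_sum fun a _ => h1 a
    _ = ∑ b, (∑ a, M b a * h a) * (f b ^ 2 / h b) := by
        rw [Finset.sum_congr rfl fun a _ => Finset.mul_sum _ _ _, Finset.sum_comm]
        refine Finset.sum_congr rfl fun b _ => ?_
        rw [Finset.sum_mul]
        refine Finset.sum_congr rfl fun a _ => ?_
        rw [hs a b]
        ring
    _ ≤ ∑ b, h b * (f b ^ 2 / h b) := by
        refine Finset.sum_le_sum fun b _ => mul_le_mul_of_nonneg_right (ht b) ?_
        exact div_nonneg (sq_nonneg _) (hh b).le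
    _ = ∑ a, f a ^ 2 := by
        refine Finset.sum_congr rfl fun b _ => ?_
        have := (hh b).ne'
        field_simp

end schur

section theta

variable {X : Type} [Fintype X]

/-- the symmetrised stability matrix, `r` = the square roots of the clocks -/
def Ys (G : Matrix X X ℂ) (r : X → ℝ) : Matrix X X ℂ :=
  Matrix.of fun a b => (r a : ℂ) * G a b ^ 2 * (r b : ℂ)

omit [Fintype X] in
theorem Ys_apply (G : Matrix X X ℂ) (r : X → ℝ) (a b : X) :
    Ys G r a b = (r a : ℂ) * G a b ^ 2 * (r b : ℂ) := rfl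

/-- the hypotheses: `G` is symmetric, `Im G` is positive semidefinite, the Ward inequality, and the
condition at every site -/
structure ThH (G : Matrix X X ℂ) (r g : X → ℝ) (c : ℝ) : Prop where
  sy : ∀ a b, G a b = G b a
  ps : ∀ f : X → ℝ, 0 ≤ ∑ a, ∑ b, (G a b).im ^ 2 * f a * f b
  rp : ∀ a, 0 < r a
  gp : ∀ a, 0 < g a
  wd : ∀ a, ∑ b, r b ^ 2 * ‖G a b‖ ^ 2 * g b ≤ g a
  th : ∀ a, ∑ b, r b ^ 2 * (G a b).re ^ 2 * g b ≤ (1 - c) * g a

/-- the Schur product: if `Im G` is positive semidefinite then so is its entrywise square -/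
theorem ps_of_posSemidef (G : Matrix X X ℂ)
    (hp : (Matrix.of fun a b => (G a b).im : Matrix X X ℝ).PosSemidef) (f : X → ℝ) :
    0 ≤ ∑ a, ∑ b, (G a b).im ^ 2 * f a * f b := by
  classical
  have h1 := hp.hadamard hp
  have h2 := h1.dotProduct_mulVec_nonneg f
  refine h2.trans_eq ?_
  simp only [dotProduct, Matrix.mulVec, Matrix.hadamard_apply, Matrix.of_apply, Pi.star_apply,
    star_trivial, Finset.mul_sum]
  refine Finset.sum_congr rfl fun a _ => Finset.sum_congr rfl fun b _ => ?_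
  ring

variable {G : Matrix X X ℂ} {r g : X → ℝ} {c : ℝ}

theorem ThH.real_form (H : ThH G r g c) (f : X → ℝ) :
    c * ∑ a, f a ^ 2 ≤ ∑ a, f a ^ 2 - ∑ a, ∑ b, (Ys G r a b).re * f a * f b := by
  have h1 := schur_form (fun a b => r a * r b * (G a b).re ^ 2) (fun a => r a * g a) (1 - c)
    (fun a b => mul_nonneg (mul_nonneg (H.rp a).le (H.rp b).le) (sq_nonneg _))
    (fun a b => by rw [H.sy a b]; ring) (fun a => mul_pos (H.rp a) (H.gp a))
    (fun a => by
      have h2 := mul_le_mul_of_nonneg_left (H.th a) (H.rp a).le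
      rw [Finset.mul_sum] at h2
      calc ∑ b, r a * r b * (G a b).re ^ 2 * (r b * g b)
          = ∑ b, r a * (r b ^ 2 * (G a b).re ^ 2 * g b) :=
            Finset.sum_congr rfl fun b _ => by ring
        _ ≤ r a * ((1 - c) * g a) := h2
        _ = (1 - c) * (r a * g a) := by ring) f
  have h3 := H.ps fun a => r a * f a
  have h4 : ∑ a, ∑ b, (Ys G r a b).re * f a * f b =
      ∑ a, ∑ b, r a * r b * (G a b).re ^ 2 * f a * f b -
        ∑ a, ∑ b, (G a b).im ^ 2 * (r a * f a) * (r b * f b) := by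
    rw [← Finset.sum_sub_distrib]
    refine Finset.sum_congr rfl fun a _ => ?_
    rw [← Finset.sum_sub_distrib]
    refine Finset.sum_congr rfl fun b _ => ?_
    have h5 : (Ys G r a b).re = r a * r b * ((G a b).re ^ 2 - (G a b).im ^ 2) := by
      rw [Ys_apply, mul_right_comm, ← Complex.ofReal_mul, Complex.re_ofReal_mul, pow_two,
        Complex.mul_re]
      ring
    rw [h5]
    ring
  rw [h4]
  linarith

/-- `Re ⟨u, (1 - Y) u⟩ ≥ c |u|²` -/
theorem ThH.form (H : ThH G r g c) (u : X → ℂ) :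
    c * ∑ a, ‖u a‖ ^ 2 ≤ ∑ a, ((starRingEnd ℂ) (u a) * (u a - (Ys G r *ᵥ u) a)).re := by
  have h1 := H.real_form fun a => (u a).re
  have h2 := H.real_form fun a => (u a).im
  have h3 : ∑ a, ((starRingEnd ℂ) (u a) * (u a - (Ys G r *ᵥ u) a)).re =
      ∑ a, ‖u a‖ ^ 2 - ∑ a, ∑ b, ((starRingEnd ℂ) (u a) * Ys G r a b * u b).re := by
    rw [← Finset.sum_sub_distrib]
    refine Finset.sum_congr rfl fun a _ => ?_
    rw [mul_sub, Complex.sub_re]
    congr 1
    · rw [← Complex.normSq_eq_conj_mul_self, Complex.ofReal_re, Complex.normSq_eq_norm_sq]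
    · rw [Matrix.mulVec, dotProduct, Finset.mul_sum, Complex.re_sum]
      refine Finset.sum_congr rfl fun b _ => ?_
      rw [mul_assoc]
  have h4 : ∑ a, ∑ b, ((starRingEnd ℂ) (u a) * Ys G r a b * u b).re =
      ∑ a, ∑ b, (Ys G r a b).re * (u a).re * (u b).re +
        ∑ a, ∑ b, (Ys G r a b).re * (u a).im * (u b).im := by
    have h5 : ∀ a b, ((starRingEnd ℂ) (u a) * Ys G r a b * u b).re =
        (Ys G r a b).re * (u a).re * (u b).re + (Ys G r a b).re * (u a).im * (u b).im -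
          (Ys G r a b).im * ((u a).re * (u b).im - (u a).im * (u b).re) := by
      intro a b
      simp only [Complex.mul_re, Complex.mul_im, Complex.conj_re, Complex.conj_im]
      ring
    have h6 : ∑ a, ∑ b, (Ys G r a b).im * ((u a).re * (u b).im - (u a).im * (u b).re) = 0 := by
      have h7 : ∑ a, ∑ b, (Ys G r a b).im * ((u a).re * (u b).im - (u a).im * (u b).re) =
          -∑ a, ∑ b, (Ys G r a b).im * ((u a).re * (u b).im - (u a).im * (u b).re) := by
        conv_lhs => rw [Finset.sum_comm]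
        rw [← Finset.sum_neg_distrib]
        refine Finset.sum_congr rfl fun a _ => ?_
        rw [← Finset.sum_neg_distrib]
        refine Finset.sum_congr rfl fun b _ => ?_
        have h8 : Ys G r b a = Ys G r a b := by
          rw [Ys_apply, Ys_apply, H.sy b a]
          ring
        rw [h8]
        ring
      linarith
    simp only [h5, Finset.sum_sub_distrib, Finset.sum_add_distrib]
    rw [h6, sub_zero]
  have h9 : ∑ a, ‖u a‖ ^ 2 = ∑ a, (u a).re ^ 2 + ∑ a, (u a).im ^ 2 := by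
    rw [← Finset.sum_add_distrib]
    refine Finset.sum_congr rfl fun a _ => ?_
    rw [← Complex.normSq_eq_norm_sq, Complex.normSq_apply]
    ring
  rw [h3, h4, h9]
  linarith

/-- `|(1 - Y) u| ≥ c |u|` -/
theorem ThH.lower (H : ThH G r g c) (hc : 0 ≤ c) (u : X → ℂ) :
    c ^ 2 * ∑ a, ‖u a‖ ^ 2 ≤ ∑ a, ‖u a - (Ys G r *ᵥ u) a‖ ^ 2 := by
  have h1 := H.form u
  set A := ∑ a, ‖u a‖ ^ 2 with hA
  set B := ∑ a, ‖u a - (Ys G r *ᵥ u) a‖ ^ 2 with hB
  have hA0 : 0 ≤ A := Finset.sum_nonneg fun a _ => sq_nonneg _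
  have hB0 : 0 ≤ B := Finset.sum_nonneg fun a _ => sq_nonneg _
  have h2 : c * A ≤ ∑ a, ‖u a‖ * ‖u a - (Ys G r *ᵥ u) a‖ := by
    refine h1.trans (Finset.sum_le_sum fun a _ => ?_)
    refine (Complex.re_le_norm _).trans ?_
    rw [norm_mul, RCLike.norm_conj]
  have h3 : (∑ a, ‖u a‖ * ‖u a - (Ys G r *ᵥ u) a‖) ^ 2 ≤ A * B :=
    Finset.sum_mul_sq_le_sq_mul_sq _ _ _
  have h4 : (c * A) ^ 2 ≤ A * B := (pow_le_pow_left₀ (mul_nonneg hc hA0) h2 2).trans h3
  rcases hA0.eq_or_lt with h5 | h5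
  · rw [← h5, mul_zero]
    exact hB0
  · have h6 : A * (c ^ 2 * A) ≤ A * B := by nlinarith
    exact le_of_mul_le_mul_left h6 h5

theorem ThH.contr (H : ThH G r g c) (u : X → ℂ) :
    ∑ a, ‖(Ys G r *ᵥ u) a‖ ^ 2 ≤ ∑ a, ‖u a‖ ^ 2 := by
  have h1 := schur_norm (fun a b => r a * r b * ‖G a b‖ ^ 2) (fun a => r a * g a)
    (fun a b => mul_nonneg (mul_nonneg (H.rp a).le (H.rp b).le) (sq_nonneg _))
    (fun a b => by rw [H.sy a b]; ring) (fun a => mul_pos (H.rp a) (H.gp a))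
    (fun a => by
      have h2 := mul_le_mul_of_nonneg_left (H.wd a) (H.rp a).le
      rw [Finset.mul_sum] at h2
      calc ∑ b, r a * r b * ‖G a b‖ ^ 2 * (r b * g b)
          = ∑ b, r a * (r b ^ 2 * ‖G a b‖ ^ 2 * g b) :=
            Finset.sum_congr rfl fun b _ => by ring
        _ ≤ r a * g a := h2) (fun a => ‖u a‖)
  refine (Finset.sum_le_sum fun a _ => ?_).trans h1
  refine pow_le_pow_left₀ (norm_nonneg _) ?_ 2
  rw [Matrix.mulVec, dotProduct]
  refine (norm_sum_le _ _).trans (Finset.sum_le_sum fun b _ => ?_)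
  rw [norm_mul, Ys_apply, norm_mul, norm_mul, norm_pow, Complex.norm_real, Complex.norm_real,
    Real.norm_of_nonneg (H.rp a).le, Real.norm_of_nonneg (H.rp b).le]
  exact le_of_eq (by ring)

/-- `|(1 + Y) u / 2|² ≤ (1 - c/2) |u|²` -/
theorem ThH.half (H : ThH G r g c) (u : X → ℂ) :
    ∑ a, ‖(1 / 2 : ℂ) * (u a + (Ys G r *ᵥ u) a)‖ ^ 2 ≤ (1 - c / 2) * ∑ a, ‖u a‖ ^ 2 := by
  have h1 := H.form u
  have h2 := H.contr u
  set v := Ys G r *ᵥ u with hv
  have h3 : ∀ a, ‖(1 / 2 : ℂ) * (u a + v a)‖ ^ 2 =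
      (3 / 4) * ‖u a‖ ^ 2 + (1 / 4) * ‖v a‖ ^ 2 -
        (1 / 2) * ((starRingEnd ℂ) (u a) * (u a - v a)).re := by
    intro a
    rw [norm_mul, mul_pow]
    have h4 : ‖(1 / 2 : ℂ)‖ = 1 / 2 := by norm_num
    rw [h4, ← Complex.normSq_eq_norm_sq, ← Complex.normSq_eq_norm_sq,
      ← Complex.normSq_eq_norm_sq, Complex.normSq_apply, Complex.normSq_apply,
      Complex.normSq_apply]
    simp only [Complex.add_re, Complex.add_im, Complex.mul_re, Complex.conj_re, Complex.conj_im,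
      Complex.sub_re, Complex.sub_im]
    ring
  simp only [h3, Finset.sum_sub_distrib, Finset.sum_add_distrib, ← Finset.mul_sum]
  linarith

/-! ### The inverse -/

/-- the map `u ↦ u - Y u` -/
noncomputable def one_sub (G : Matrix X X ℂ) (r : X → ℝ) : (X → ℂ) →ₗ[ℂ] (X → ℂ) :=
  LinearMap.id - (Ys G r).mulVecLin

theorem one_sub_apply (G : Matrix X X ℂ) (r : X → ℝ) (u : X → ℂ) (a : X) :
    one_sub G r u a = u a - (Ys G r *ᵥ u) a := rfl

theorem ThH.surj (H : ThH G r g c) (hc : 0 < c) (m : X → ℂ) :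
    ∃ u : X → ℂ, (∀ a, u a - (Ys G r *ᵥ u) a = m a) ∧
      c ^ 2 * ∑ a, ‖u a‖ ^ 2 ≤ ∑ a, ‖m a‖ ^ 2 := by
  have hinj : Function.Injective (one_sub G r) := by
    rw [← LinearMap.ker_eq_bot, LinearMap.ker_eq_bot']
    intro u hu
    have h1 := H.lower hc.le u
    have h2 : ∑ a, ‖u a - (Ys G r *ᵥ u) a‖ ^ 2 = 0 := by
      refine Finset.sum_eq_zero fun a _ => ?_
      rw [← one_sub_apply, hu]
      simp
    rw [h2] at h1
    have h3 : ∑ a, ‖u a‖ ^ 2 = 0 := by
      refine le_antisymm ?_ (Finset.sum_nonneg fun a _ => sq_nonneg _)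
      have h4 : 0 < c ^ 2 := by positivity
      by_contra h5
      push Not at h5
      have := mul_pos h4 h5
      linarith
    funext a
    have h6 := (Finset.sum_eq_zero_iff_of_nonneg fun a _ => sq_nonneg _).mp h3 a
      (Finset.mem_univ a)
    exact norm_eq_zero.mp (pow_eq_zero_iff two_ne_zero |>.mp h6)
  obtain ⟨u, hu⟩ := LinearMap.injective_iff_surjective.mp hinj m
  refine ⟨u, fun a => by rw [← one_sub_apply, hu], ?_⟩
  have h1 := H.lower hc.le u
  refine h1.trans (le_of_eq (Finset.sum_congr rfl fun a _ => ?_))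
  rw [← one_sub_apply, hu]

/-! ### The bound in the maximum norm -/

/-- `T = (1 + Y) / 2` -/
noncomputable def Th (G : Matrix X X ℂ) (r : X → ℝ) (u : X → ℂ) : X → ℂ :=
  fun a => (1 / 2 : ℂ) * (u a + (Ys G r *ᵥ u) a)

/-- `T` does not increase the maximum norm with the weights `r g` -/
theorem ThH.th_sup (H : ThH G r g c) (u : X → ℂ) (M : ℝ) (hu : ∀ a, ‖u a‖ ≤ M * (r a * g a))
    (a : X) : ‖Th G r u a‖ ≤ M * (r a * g a) := by
  have hra := H.rp a
  have hga := H.gp a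
  have hM : 0 ≤ M := by
    have h1 := (norm_nonneg _).trans (hu a)
    by_contra h2
    push Not at h2
    have := mul_neg_of_neg_of_pos h2 (mul_pos hra hga)
    linarith
  have h3 : ‖(Ys G r *ᵥ u) a‖ ≤ M * (r a * g a) := by
    rw [Matrix.mulVec, dotProduct]
    calc ‖∑ b, Ys G r a b * u b‖ ≤ ∑ b, ‖Ys G r a b * u b‖ := norm_sum_le _ _
      _ ≤ ∑ b, M * (r a * (r b ^ 2 * ‖G a b‖ ^ 2 * g b)) := by
          refine Finset.sum_le_sum fun b _ => ?_
          rw [norm_mul, Ys_apply, norm_mul, norm_mul, norm_pow, Complex.norm_real,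
            Complex.norm_real, Real.norm_of_nonneg hra.le, Real.norm_of_nonneg (H.rp b).le]
          have h4 := hu b
          have h5 : 0 ≤ r a * ‖G a b‖ ^ 2 * r b :=
            mul_nonneg (mul_nonneg hra.le (sq_nonneg _)) (H.rp b).le
          calc r a * ‖G a b‖ ^ 2 * r b * ‖u b‖ ≤ r a * ‖G a b‖ ^ 2 * r b * (M * (r b * g b)) :=
                mul_le_mul_of_nonneg_left h4 h5
            _ = M * (r a * (r b ^ 2 * ‖G a b‖ ^ 2 * g b)) := by ring
      _ = M * (r a * ∑ b, r b ^ 2 * ‖G a b‖ ^ 2 * g b) := by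
          rw [Finset.mul_sum, Finset.mul_sum]
      _ ≤ M * (r a * g a) :=
          mul_le_mul_of_nonneg_left (mul_le_mul_of_nonneg_left (H.wd a) hra.le) hM
  unfold Th
  rw [norm_mul]
  have h6 : ‖(1 / 2 : ℂ)‖ = 1 / 2 := by norm_num
  rw [h6]
  have h7 := norm_add_le (u a) ((Ys G r *ᵥ u) a)
  have h8 := hu a
  linarith

theorem ThH.th_iter_sup (H : ThH G r g c) (u : X → ℂ) (M : ℝ)
    (hu : ∀ a, ‖u a‖ ≤ M * (r a * g a)) (k : ℕ) (a : X) :
    ‖(Th G r)^[k] u a‖ ≤ M * (r a * g a) := by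
  induction k generalizing a with
  | zero => exact hu a
  | succ k ih =>
    rw [Function.iterate_succ_apply']
    exact H.th_sup _ M ih a

theorem ThH.th_iter_norm (H : ThH G r g c) (hc : c ≤ 2) (u : X → ℂ) (k : ℕ) :
    ∑ a, ‖(Th G r)^[k] u a‖ ^ 2 ≤ (1 - c / 2) ^ k * ∑ a, ‖u a‖ ^ 2 := by
  induction k with
  | zero => simp
  | succ k ih =>
    rw [Function.iterate_succ_apply', pow_succ']
    calc ∑ a, ‖Th G r ((Th G r)^[k] u) a‖ ^ 2
        ≤ (1 - c / 2) * ∑ a, ‖(Th G r)^[k] u a‖ ^ 2 := H.half _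
      _ ≤ (1 - c / 2) * ((1 - c / 2) ^ k * ∑ a, ‖u a‖ ^ 2) :=
          mul_le_mul_of_nonneg_left ih (by linarith)
      _ = _ := by ring

/-- the Neumann sum with its remainder -/
theorem neumann (G : Matrix X X ℂ) (r : X → ℝ) (u m : X → ℂ)
    (hu : ∀ a, u a - (Ys G r *ᵥ u) a = m a) (J : ℕ) (a : X) :
    u a = (1 / 2 : ℂ) * ∑ k ∈ Finset.range J, (Th G r)^[k] m a + (Th G r)^[J] u a := by
  have hlin : ∀ v w : X → ℂ, Th G r (v + w) = Th G r v + Th G r w := by
    intro v w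
    funext b
    unfold Th
    rw [Matrix.mulVec_add]
    simp only [Pi.add_apply]
    ring
  have hsm : ∀ (z : ℂ) (v : X → ℂ), Th G r (z • v) = z • Th G r v := by
    intro z v
    funext b
    unfold Th
    rw [Matrix.mulVec_smul]
    simp only [Pi.smul_apply, smul_eq_mul]
    ring
  have hit : ∀ (k : ℕ) (z : ℂ) (v w : X → ℂ), (Th G r)^[k] (z • v + w) =
      z • (Th G r)^[k] v + (Th G r)^[k] w := by
    intro k z
    induction k with
    | zero => intro v w; rfl
    | succ k ih =>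
      intro v w
      rw [Function.iterate_succ_apply, Function.iterate_succ_apply, Function.iterate_succ_apply,
        hlin, hsm, ih]
  have hone : u = (1 / 2 : ℂ) • m + Th G r u := by
    funext b
    simp only [Pi.add_apply, Pi.smul_apply, smul_eq_mul]
    unfold Th
    rw [← hu b]
    ring
  induction J with
  | zero => simp
  | succ J ih =>
    rw [Finset.sum_range_succ, mul_add, ih, Function.iterate_succ_apply]
    have h1 : (Th G r)^[J] u a = (1 / 2 : ℂ) * (Th G r)^[J] m a + (Th G r)^[J] (Th G r u) a := by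
      conv_lhs => rw [hone]
      rw [hit]
      rfl
    rw [h1]
    ring

/-- the solution of `u - Y u = m` in the maximum norm: the loss is the number `J` of the terms,
up to an exponentially small multiple of the euclidean norm -/
theorem ThH.sup_bound (H : ThH G r g c) (hc : 0 < c) (hc2 : c ≤ 2) (u m : X → ℂ)
    (hu : ∀ a, u a - (Ys G r *ᵥ u) a = m a) (M : ℝ) (hm : ∀ a, ‖m a‖ ≤ M * (r a * g a))
    (J : ℕ) (a : X) : ‖u a‖ ≤ J / 2 * (M * (r a * g a)) +
      Real.sqrt ((1 - c / 2) ^ J * (c⁻¹ ^ 2 * ∑ b, ‖m b‖ ^ 2)) := by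
  rw [neumann G r u m hu J a]
  refine (norm_add_le _ _).trans (add_le_add ?_ ?_)
  · rw [norm_mul]
    have h6 : ‖(1 / 2 : ℂ)‖ = 1 / 2 := by norm_num
    rw [h6]
    calc (1 / 2) * ‖∑ k ∈ Finset.range J, (Th G r)^[k] m a‖
        ≤ (1 / 2) * ∑ k ∈ Finset.range J, ‖(Th G r)^[k] m a‖ :=
          mul_le_mul_of_nonneg_left (norm_sum_le _ _) (by norm_num)
      _ ≤ (1 / 2) * ∑ k ∈ Finset.range J, M * (r a * g a) :=
          mul_le_mul_of_nonneg_left (Finset.sum_le_sum fun k _ => H.th_iter_sup m M hm k a)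
            (by norm_num)
      _ = J / 2 * (M * (r a * g a)) := by
          rw [Finset.sum_const, Finset.card_range, nsmul_eq_mul]
          ring
  · apply Real.le_sqrt_of_sq_le
    calc ‖(Th G r)^[J] u a‖ ^ 2 ≤ ∑ b, ‖(Th G r)^[J] u b‖ ^ 2 :=
          Finset.single_le_sum (f := fun b => ‖(Th G r)^[J] u b‖ ^ 2)
            (fun b _ => sq_nonneg _) (Finset.mem_univ a)
      _ ≤ (1 - c / 2) ^ J * ∑ b, ‖u b‖ ^ 2 := H.th_iter_norm hc2 u J
      _ ≤ (1 - c / 2) ^ J * (c⁻¹ ^ 2 * ∑ b, ‖m b‖ ^ 2) := by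
          refine mul_le_mul_of_nonneg_left ?_ (pow_nonneg (by linarith) _)
          have h1 := H.lower hc.le u
          have h2 : ∑ b, ‖u b - (Ys G r *ᵥ u) b‖ ^ 2 = ∑ b, ‖m b‖ ^ 2 :=
            Finset.sum_congr rfl fun b _ => by rw [hu b]
          rw [h2] at h1
          rw [inv_pow, ← div_eq_inv_mul, le_div_iff₀ (by positivity)]
          linarith

/-! ### Exponential decay (Combes-Thomas) -/

/-- the conjugated form: `e` is a positive weight -/
theorem ThH.form_ct (H : ThH G r g c) (e : X → ℝ) (θ : ℝ)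
    (hct : ∀ a, ∑ b, r b ^ 2 * ‖G a b‖ ^ 2 * (|1 - e a / e b| ⊔ |1 - e b / e a|) * g b ≤
      θ * g a) (u : X → ℂ) :
    (c - θ) * ∑ a, ‖u a‖ ^ 2 ≤
      ∑ a, ((starRingEnd ℂ) (u a) * (u a - ∑ b, ((e a / e b : ℝ) : ℂ) * Ys G r a b * u b)).re := by
  have h1 := H.form u
  have h2 := schur_form
    (fun a b => r a * r b * ‖G a b‖ ^ 2 * (|1 - e a / e b| ⊔ |1 - e b / e a|))
    (fun a => r a * g a) θ
    (fun a b => mul_nonneg (mul_nonneg (mul_nonneg (H.rp a).le (H.rp b).le) (sq_nonneg _))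
      (le_max_of_le_left (abs_nonneg _)))
    (fun a b => by rw [H.sy a b, max_comm]; ring) (fun a => mul_pos (H.rp a) (H.gp a))
    (fun a => by
      have h3 := mul_le_mul_of_nonneg_left (hct a) (H.rp a).le
      rw [Finset.mul_sum] at h3
      refine (le_of_eq ?_).trans (h3.trans (le_of_eq (by ring)))
      exact Finset.sum_congr rfl fun b _ => by ring) (fun a => ‖u a‖)
  have h4 : ∑ a, ((starRingEnd ℂ) (u a) * (u a - (Ys G r *ᵥ u) a)).re -
      ∑ a, ((starRingEnd ℂ) (u a) *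
        (u a - ∑ b, ((e a / e b : ℝ) : ℂ) * Ys G r a b * u b)).re ≤
      ∑ a, ∑ b, r a * r b * ‖G a b‖ ^ 2 * (|1 - e a / e b| ⊔ |1 - e b / e a|) * ‖u a‖ *
        ‖u b‖ := by
    rw [← Finset.sum_sub_distrib]
    refine Finset.sum_le_sum fun a _ => ?_
    rw [← Complex.sub_re, ← mul_sub]
    have h5 : (u a - (Ys G r *ᵥ u) a) -
        (u a - ∑ b, ((e a / e b : ℝ) : ℂ) * Ys G r a b * u b) =
        ∑ b, ((e a / e b - 1 : ℝ) : ℂ) * Ys G r a b * u b := by
      rw [Matrix.mulVec, dotProduct, sub_sub_sub_cancel_left, ← Finset.sum_sub_distrib]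
      refine Finset.sum_congr rfl fun b _ => ?_
      push_cast
      ring
    rw [h5]
    refine (Complex.re_le_norm _).trans ?_
    rw [norm_mul, RCLike.norm_conj]
    calc ‖u a‖ * ‖∑ b, ((e a / e b - 1 : ℝ) : ℂ) * Ys G r a b * u b‖
        ≤ ‖u a‖ * ∑ b, ‖((e a / e b - 1 : ℝ) : ℂ) * Ys G r a b * u b‖ :=
          mul_le_mul_of_nonneg_left (norm_sum_le _ _) (norm_nonneg _)
      _ ≤ _ := by
          rw [Finset.mul_sum]
          refine Finset.sum_le_sum fun b _ => ?_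
          rw [norm_mul, norm_mul, Complex.norm_real, Ys_apply, norm_mul, norm_mul, norm_pow,
            Complex.norm_real, Complex.norm_real, Real.norm_of_nonneg (H.rp a).le,
            Real.norm_of_nonneg (H.rp b).le, Real.norm_eq_abs]
          have h6 : |e a / e b - 1| ≤ |1 - e a / e b| ⊔ |1 - e b / e a| := by
            rw [abs_sub_comm]
            exact le_max_left _ _
          have h7 : 0 ≤ r a * ‖G a b‖ ^ 2 * r b * ‖u b‖ * ‖u a‖ := by
            have := (H.rp a).le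
            have := (H.rp b).le
            positivity
          calc ‖u a‖ * (|e a / e b - 1| * (r a * ‖G a b‖ ^ 2 * r b) * ‖u b‖)
              = |e a / e b - 1| * (r a * ‖G a b‖ ^ 2 * r b * ‖u b‖ * ‖u a‖) := by ring
            _ ≤ (|1 - e a / e b| ⊔ |1 - e b / e a|) *
                (r a * ‖G a b‖ ^ 2 * r b * ‖u b‖ * ‖u a‖) :=
                mul_le_mul_of_nonneg_right h6 h7
            _ = _ := by ring
  linarith

/-- the weighted euclidean bound: `∑ e² |u|² ≤ (c - θ)⁻² ∑ e² |m|²` -/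
theorem ThH.weighted (H : ThH G r g c) (e : X → ℝ) (he : ∀ a, 0 < e a) (θ : ℝ) (hθ : θ < c)
    (hct : ∀ a, ∑ b, r b ^ 2 * ‖G a b‖ ^ 2 * (|1 - e a / e b| ⊔ |1 - e b / e a|) * g b ≤
      θ * g a) (u m : X → ℂ) (hu : ∀ a, u a - (Ys G r *ᵥ u) a = m a) :
    (c - θ) ^ 2 * ∑ a, e a ^ 2 * ‖u a‖ ^ 2 ≤ ∑ a, e a ^ 2 * ‖m a‖ ^ 2 := by
  have h1 := H.form_ct e θ hct fun a => (e a : ℂ) * u a
  have h2 : ∀ a, ((e a : ℂ) * u a - ∑ b, ((e a / e b : ℝ) : ℂ) * Ys G r a b * ((e b : ℂ) * u b)) =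
      (e a : ℂ) * m a := by
    intro a
    rw [← hu a, mul_sub, Matrix.mulVec, dotProduct, Finset.mul_sum]
    congr 1
    refine Finset.sum_congr rfl fun b _ => ?_
    have h3 : ((e b : ℝ) : ℂ) ≠ 0 := by exact_mod_cast (he b).ne'
    push_cast
    field_simp
  simp only [h2] at h1
  have hn : ∀ (v : X → ℂ) (a : X), ‖(e a : ℂ) * v a‖ ^ 2 = e a ^ 2 * ‖v a‖ ^ 2 := by
    intro v a
    rw [norm_mul, mul_pow, Complex.norm_real, Real.norm_eq_abs, sq_abs]
  set A := ∑ a, e a ^ 2 * ‖u a‖ ^ 2 with hA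
  set B := ∑ a, e a ^ 2 * ‖m a‖ ^ 2 with hB
  have hA0 : 0 ≤ A := Finset.sum_nonneg fun a _ => mul_nonneg (sq_nonneg _) (sq_nonneg _)
  have hB0 : 0 ≤ B := Finset.sum_nonneg fun a _ => mul_nonneg (sq_nonneg _) (sq_nonneg _)
  have hAe : ∑ a, ‖(e a : ℂ) * u a‖ ^ 2 = A := Finset.sum_congr rfl fun a _ => hn u a
  have hBe : ∑ a, ‖(e a : ℂ) * m a‖ ^ 2 = B := Finset.sum_congr rfl fun a _ => hn m a
  rw [hAe] at h1
  have h4 : (c - θ) * A ≤ ∑ a, ‖(e a : ℂ) * u a‖ * ‖(e a : ℂ) * m a‖ := by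
    refine h1.trans (Finset.sum_le_sum fun a _ => ?_)
    refine (Complex.re_le_norm _).trans ?_
    rw [norm_mul, RCLike.norm_conj]
  have h5 : (∑ a, ‖(e a : ℂ) * u a‖ * ‖(e a : ℂ) * m a‖) ^ 2 ≤ A * B := by
    rw [← hAe, ← hBe]
    exact Finset.sum_mul_sq_le_sq_mul_sq _ _ _
  have hcθ : 0 ≤ c - θ := by linarith
  have h6 : ((c - θ) * A) ^ 2 ≤ A * B :=
    (pow_le_pow_left₀ (mul_nonneg hcθ hA0) h4 2).trans h5
  rcases hA0.eq_or_lt with h7 | h7
  · rw [← h7, mul_zero]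
    exact hB0
  · have h8 : A * ((c - θ) ^ 2 * A) ≤ A * B := by nlinarith
    exact le_of_mul_le_mul_left h8 h7

/-- the local bound in the maximum norm at the site `o`: only the values of `m` in `B` enter, up to
an exponentially small error -/
theorem ThH.local_sup [DecidableEq X] (H : ThH G r g c) (hc : 0 < c) (hc2 : c ≤ 2) (e : X → ℝ)
    (he : ∀ a, 0 < e a) (θ : ℝ) (hθ : θ < c)
    (hct : ∀ a, ∑ b, r b ^ 2 * ‖G a b‖ ^ 2 * (|1 - e a / e b| ⊔ |1 - e b / e a|) * g b ≤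
      θ * g a) (o : X) (ho : e o = 1) (B : Finset X) (u m : X → ℂ)
    (hu : ∀ a, u a - (Ys G r *ᵥ u) a = m a) (M : ℝ) (hM : 0 ≤ M)
    (hm : ∀ a ∈ B, ‖m a‖ ≤ M * (r a * g a)) (J : ℕ) :
    ‖u o‖ ≤ J / 2 * (M * (r o * g o)) +
      Real.sqrt ((1 - c / 2) ^ J * (c⁻¹ ^ 2 * ∑ b ∈ B, ‖m b‖ ^ 2)) +
      Real.sqrt ((c - θ)⁻¹ ^ 2 * ∑ b ∈ Bᶜ, e b ^ 2 * ‖m b‖ ^ 2) := by
  obtain ⟨u1, hu1, -⟩ := H.surj hc fun a => if a ∈ B then m a else 0
  have hu2 : ∀ a, (u - u1) a - (Ys G r *ᵥ (u - u1)) a = if a ∈ B then 0 else m a := by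
    intro a
    rw [Matrix.mulVec_sub]
    have h1 := hu a
    have h2 := hu1 a
    simp only [Pi.sub_apply]
    split_ifs with h3
    · rw [if_pos h3] at h2
      rw [← h2] at h1
      linear_combination h1
    · rw [if_neg h3] at h2
      linear_combination h1 - h2
  have h3 : ‖u1 o‖ ≤ J / 2 * (M * (r o * g o)) +
      Real.sqrt ((1 - c / 2) ^ J * (c⁻¹ ^ 2 * ∑ b ∈ B, ‖m b‖ ^ 2)) := by
    have h4 := H.sup_bound hc hc2 u1 _ hu1 M (fun a => by
      split_ifs with h5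
      · exact hm a h5
      · rw [norm_zero]
        exact mul_nonneg hM (mul_nonneg (H.rp a).le (H.gp a).le)) J o
    have h5 : ∑ b, ‖(if b ∈ B then m b else 0 : ℂ)‖ ^ 2 = ∑ b ∈ B, ‖m b‖ ^ 2 := by
      rw [← Finset.sum_filter_add_sum_filter_not Finset.univ (fun b => b ∈ B)]
      rw [Finset.filter_mem_eq_inter, Finset.univ_inter]
      have h6 : ∑ x ∈ Finset.univ.filter (fun b => b ∉ B),
          ‖(if x ∈ B then m x else 0 : ℂ)‖ ^ 2 = 0 := by
        refine Finset.sum_eq_zero fun b hb => ?_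
        rw [Finset.mem_filter] at hb
        rw [if_neg hb.2]
        simp
      rw [h6, add_zero]
      exact Finset.sum_congr rfl fun b hb => by rw [if_pos hb]
    rw [h5] at h4
    exact h4
  have h4 : ‖(u - u1) o‖ ≤ Real.sqrt ((c - θ)⁻¹ ^ 2 * ∑ b ∈ Bᶜ, e b ^ 2 * ‖m b‖ ^ 2) := by
    apply Real.le_sqrt_of_sq_le
    have h5 := H.weighted e he θ hθ hct (u - u1) _ hu2
    have h6 : ∑ a, e a ^ 2 * ‖(if a ∈ B then 0 else m a : ℂ)‖ ^ 2 =
        ∑ b ∈ Bᶜ, e b ^ 2 * ‖m b‖ ^ 2 := by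
      rw [← Finset.sum_filter_add_sum_filter_not Finset.univ (fun b => b ∈ B)]
      have h7 : ∑ x ∈ Finset.univ.filter (fun b => b ∈ B),
          e x ^ 2 * ‖(if x ∈ B then 0 else m x : ℂ)‖ ^ 2 = 0 := by
        refine Finset.sum_eq_zero fun b hb => ?_
        rw [Finset.mem_filter] at hb
        rw [if_pos hb.2]
        simp
      have h8 : Finset.univ.filter (fun b => b ∉ B) = Bᶜ := by
        ext b
        simp
      rw [h7, zero_add, h8]
      refine Finset.sum_congr rfl fun b hb => ?_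
      rw [if_neg (Finset.mem_compl.mp hb)]
    rw [h6] at h5
    have h9 : 0 < c - θ := by linarith
    have h10 : e o ^ 2 * ‖(u - u1) o‖ ^ 2 ≤ ∑ a, e a ^ 2 * ‖(u - u1) a‖ ^ 2 :=
      Finset.single_le_sum (f := fun a => e a ^ 2 * ‖(u - u1) a‖ ^ 2)
        (fun a _ => mul_nonneg (sq_nonneg _) (sq_nonneg _)) (Finset.mem_univ o)
    rw [ho, one_pow, one_mul] at h10
    refine h10.trans ?_
    rw [inv_pow, ← div_eq_inv_mul, le_div_iff₀ (by positivity)]
    linarith
  have h5 : u o = u1 o + (u - u1) o := by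
    simp only [Pi.sub_apply]
    ring
  rw [h5]
  exact (norm_add_le _ _).trans (add_le_add h3 h4)

end theta

end Pool.Agent.Helper92_AND
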